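import Mathlib

set_option autoImplicit false

namespace Pool.Agent.H853Z.Cross

open Complex

/-- A continuous nowhere vanishing function on the plane has a continuous logarithm. -/
lemma exists_log (f : ℝ × ℝ → ℂ) (hf : Continuous f) (h0 : ∀ p, f p ≠ 0) :
    ∃ θ : ℝ × ℝ → ℂ, Continuous θ ∧ ∀ p, exp (θ p) = f p := by
  let F : C(ℝ × ℝ, {z : ℂ // z ≠ 0}) := ⟨fun p => ⟨f p, h0 p⟩, hf.subtype_mk _⟩
  obtain ⟨G, ⟨-, hG⟩, -⟩ := Complex.isCoveringMap_exp.existsUnique_continuousMap_lifts F (0, 0)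
    (log (f (0, 0))) (by
      apply Subtype.ext
      simp [F, exp_log (h0 (0, 0))])
  refine ⟨G, G.continuous, fun p => ?_⟩
  have := congrArg Subtype.val (congrFun hG p)
  simpa [F] using this

lemma const_of_exp (g : ℝ → ℂ) (hg : Continuous g) (c : ℂ) (h : ∀ s, exp (g s) = c) :
    g 0 = g 1 := by
  apply Complex.isCoveringMap_exp.const_of_comp hg
  intro a a'
  apply Subtype.ext
  simp [h]

/-- imaginary part of the logarithm of `-I r`. -/
noncomputable def A (r : ℝ) : ℝ := (log (-I * r)).im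

lemma A_pos {r : ℝ} (hr : 0 < r) : A r = -(Real.pi / 2) := by
  unfold A
  rw [log_im, mul_comm, arg_real_mul _ hr, arg_neg_I]

lemma A_neg {r : ℝ} (hr : r < 0) : A r = Real.pi / 2 := by
  unfold A
  have : -I * (r : ℂ) = ((-r : ℝ) : ℂ) * I := by push_cast; ring
  rw [log_im, this, arg_real_mul _ (by linarith), arg_I]

lemma upper (γ θ : ℝ → ℂ) (hγ : Continuous γ) (hθ : Continuous θ) (he : ∀ s, exp (θ s) = γ s)
    (him : ∀ s, 0 ≤ (γ s).im) (r0 r1 : ℝ) (h0 : γ 0 = r0) (h1 : γ 1 = r1) :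
    (θ 1).im - (θ 0).im = A r1 - A r0 := by
  have hne : ∀ s, γ s ≠ 0 := fun s => by rw [← he s]; exact exp_ne_zero _
  have hslit : ∀ s, -I * γ s ∈ slitPlane := by
    intro s
    rw [mem_slitPlane_iff]
    have h1 : (-I * γ s).re = (γ s).im := by simp
    have h2 : (-I * γ s).im = -(γ s).re := by simp
    rw [h1, h2]
    rcases (him s).lt_or_eq with h | h
    · exact Or.inl h
    · right
      intro h3
      apply hne s
      apply Complex.ext
      · simpa using h3
      · simpa using h.symm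
  have hc : Continuous fun s => θ s - log (-I * γ s) :=
    hθ.sub (Continuous.clog (continuous_const.mul hγ) hslit)
  have key := const_of_exp _ hc I (fun s => by
    have hz : -I * γ s ≠ 0 := mul_ne_zero (neg_ne_zero.mpr I_ne_zero) (hne s)
    rw [exp_sub, exp_log hz, he s, div_eq_iff hz]
    have : I * (-I * γ s) = -(I * I) * γ s := by ring
    rw [this, I_mul_I]; ring)
  have := congrArg Complex.im key
  simp only [sub_im] at this
  unfold A
  rw [← h0, ← h1]
  linarith

lemma lower (γ θ : ℝ → ℂ) (hγ : Continuous γ) (hθ : Continuous θ) (he : ∀ s, exp (θ s) = γ s)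
    (him : ∀ s, (γ s).im ≤ 0) (r0 r1 : ℝ) (h0 : γ 0 = r0) (h1 : γ 1 = r1) :
    (θ 1).im - (θ 0).im = A (-r1) - A (-r0) := by
  have := upper (fun s => -γ s) (fun s => θ s + Real.pi * I) hγ.neg (hθ.add continuous_const)
    (fun s => by rw [exp_add, he s, exp_pi_mul_I]; ring) (fun s => by simpa using him s)
    (-r0) (-r1) (by simp [h0]) (by simp [h1])
  simp only [add_im] at this
  linarith

/-- Crossing lemma: a path from a real point between `y1` and `y2` to a real point beyond both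
meets one of two paths from `y1` to `y2` lying in the upper and in the lower half plane. -/
theorem cross (a b β : ℝ → ℂ) (ha : Continuous a) (hb : Continuous b) (hβ : Continuous β)
    (y1 y2 q q' : ℝ) (ha0 : a 0 = y1) (ha1 : a 1 = y2) (hb0 : b 0 = y1) (hb1 : b 1 = y2)
    (haim : ∀ s, 0 ≤ (a s).im) (hbim : ∀ s, (b s).im ≤ 0) (hβ0 : β 0 = q) (hβ1 : β 1 = q')
    (hq : (y1 - q) * (y2 - q) < 0) (hq1 : y1 < q') (hq2 : y2 < q')
    (hna : ∀ s t, a s ≠ β t) (hnb : ∀ s t, b s ≠ β t) : False := by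
  obtain ⟨θ, hθ, heθ⟩ := exists_log (fun p => a p.1 - β p.2)
    ((ha.comp continuous_fst).sub (hβ.comp continuous_snd)) (fun p => sub_ne_zero.mpr (hna _ _))
  obtain ⟨ψ, hψ, heψ⟩ := exists_log (fun p => b p.1 - β p.2)
    ((hb.comp continuous_fst).sub (hβ.comp continuous_snd)) (fun p => sub_ne_zero.mpr (hnb _ _))
  have hD := const_of_exp (fun t => (θ (1, t) - θ (0, t)) - (ψ (1, t) - ψ (0, t)))
    (by fun_prop) 1 (fun t => by
      have h1 := hna 0 t
      have h2 := hna 1 t
      rw [exp_sub, exp_sub, exp_sub, heθ, heθ, heψ, heψ]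
      simp only [ha0, ha1, hb0, hb1] at *
      have h1' := sub_ne_zero.mpr h1
      have h2' := sub_ne_zero.mpr h2
      field_simp)
  have hD' := congrArg Complex.im hD
  simp only [sub_im] at hD'
  have e1 : ∀ (t p : ℝ), β t = p → (θ (1, t)).im - (θ (0, t)).im = A (y2 - p) - A (y1 - p) := by
    intro t p hp
    exact upper (fun s => a s - β t) (fun s => θ (s, t)) (by fun_prop) (by fun_prop)
      (fun s => heθ (s, t)) (fun s => by simpa [hp] using haim s) _ _
      (by simp [ha0, hp]) (by simp [ha1, hp])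
  have e2 : ∀ (t p : ℝ), β t = p →
      (ψ (1, t)).im - (ψ (0, t)).im = A (-(y2 - p)) - A (-(y1 - p)) := by
    intro t p hp
    exact lower (fun s => b s - β t) (fun s => ψ (s, t)) (by fun_prop) (by fun_prop)
      (fun s => heψ (s, t)) (fun s => by simpa [hp] using hbim s) _ _
      (by simp [hb0, hp]) (by simp [hb1, hp])
  have f1 := e1 0 q hβ0
  have f2 := e2 0 q hβ0
  have f3 := e1 1 q' hβ1
  have f4 := e2 1 q' hβ1
  rw [A_neg (by linarith : y2 - q' < 0), A_neg (by linarith : y1 - q' < 0)] at f3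
  rw [A_pos (by linarith : 0 < -(y2 - q')), A_pos (by linarith : 0 < -(y1 - q'))] at f4
  have hpi := Real.pi_pos
  rcases mul_neg_iff.mp hq with ⟨h1, h2⟩ | ⟨h1, h2⟩
  · rw [A_neg h2, A_pos h1] at f1
    rw [A_pos (by linarith : 0 < -(y2 - q)), A_neg (by linarith : -(y1 - q) < 0)] at f2
    linarith
  · rw [A_pos h2, A_neg h1] at f1
    rw [A_neg (by linarith : -(y2 - q) < 0), A_pos (by linarith : 0 < -(y1 - q))] at f2
    linarith

end Pool.Agent.H853Z.Cross
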