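import Pool.Agent.H853Z.Surf
import Pool.Agent.H853Z.Cross

set_option autoImplicit false

namespace Pool.Agent.H853Z.Surf

open Set Topology

/-- The open set: the union of the irrational charts. -/
def U : Set M := {m | ∃ x, Irrational x ∧ m ∈ range (c x)}

lemma c_mem_U {x : ℝ} (hx : Irrational x) (p : ℝ × ℝ) : c x p ∈ U := ⟨x, hx, p, rfl⟩

lemma isOpen_U : IsOpen U := by
  have : U = ⋃ x : {x : ℝ // Irrational x}, range (c x) := by
    ext m
    simp [U]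
  rw [this]
  exact isOpen_iUnion fun x => (isOpenEmbedding_c x).isOpen_range

lemma sign_const {s : Set (ℝ × ℝ)} (hs : IsPreconnected s) {H : ℝ × ℝ → ℝ} (hH : Continuous H)
    (h0 : ∀ p ∈ s, H p ≠ 0) : (∀ p ∈ s, 0 < H p) ∨ (∀ p ∈ s, H p < 0) := by
  have := IsPreconnected.subset_or_subset (u := {p | 0 < H p}) (v := {p | H p < 0})
    (isOpen_lt continuous_const hH) (isOpen_lt hH continuous_const)
    (Set.disjoint_left.mpr fun p (h1 : 0 < H p) (h2 : H p < 0) => lt_asymm h1 h2)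
    (fun p hp => by
      rcases lt_or_gt_of_ne (h0 p hp) with h | h
      · exact Or.inr h
      · exact Or.inl h) hs
  exact this

lemma exists_notMem_ball {C : Set ℝ} (hC : C.Countable) (x : ℝ) {r : ℝ} (hr : 0 < r) :
    ∃ y, y ∈ Metric.ball x r ∧ y ∉ C := by
  obtain ⟨y, h1, h2⟩ := (hC.dense_compl ℝ).inter_open_nonempty _ Metric.isOpen_ball
    ⟨x, Metric.mem_ball_self hr⟩
  exact ⟨y, h1, h2⟩

lemma exists_arc {J : Set ℝ} (hJ : Convex ℝ J) {x1 x2 : ℝ} (h1 : Irrational x1)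
    (h2 : Irrational x2) (j1 : x1 ∈ J) (j2 : x2 ∈ J) {κ : ℝ} (hκ : κ ≠ 0) :
    ∃ α : ℝ → M, Continuous α ∧ α 0 = c x1 0 ∧ α 1 = c x2 0 ∧ ∀ τ, α τ = c x1 0 ∨ α τ = c x2 0 ∨
      ∃ x l ρ, Irrational x ∧ 0 < ρ ∧ ρ ≤ 1 ∧ x + l * (κ * ρ) ∈ J ∧ α τ = c x (l, κ * ρ) := by
  set μ := (x2 - x1) / (2 * κ) with hμ
  have hμκ : μ * κ = (x2 - x1) / 2 := by rw [hμ]; field_simp
  refine ⟨fun τ => if τ ≤ 1 / 2 then c x1 (μ * max 0 (2 * τ), κ * max 0 (2 * τ))
    else c x2 (-μ * max 0 (2 - 2 * τ), κ * max 0 (2 - 2 * τ)), ?_, ?_, ?_, ?_⟩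
  · refine Continuous.if_le ((continuous_c x1).comp (by fun_prop))
      ((continuous_c x2).comp (by fun_prop)) continuous_id continuous_const ?_
    intro τ hτ
    subst hτ
    have e1 : max (0 : ℝ) (2 * (1 / 2)) = 1 := by norm_num
    have e2 : max (0 : ℝ) (2 - 2 * (1 / 2)) = 1 := by norm_num
    rw [e1, e2]
    refine c_eq.mpr (Or.inr ⟨glued_of_irr h1 (by simpa using hκ),
      glued_of_irr h2 (by simpa using hκ), rfl, ?_⟩)
    simp only
    linarith
  · have : (0 : ℝ) ≤ 1 / 2 := by norm_num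
    simp only [this, if_true]
    congr 1
    simp
  · have : ¬ (1 : ℝ) ≤ 1 / 2 := by norm_num
    simp only [this, if_false]
    congr 1
    simp
  · intro τ
    by_cases hτ : τ ≤ 1 / 2
    · simp only [hτ, if_true]
      rcases le_or_gt τ 0 with h | h
      · left
        rw [max_eq_left (by linarith)]
        congr 1
        simp
      · right; right
        rw [max_eq_right (by linarith)]
        refine ⟨x1, μ * (2 * τ), 2 * τ, h1, by linarith, by linarith, ?_, rfl⟩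
        have := hJ j1 j2 (a := 1 - 2 * τ ^ 2) (b := 2 * τ ^ 2) (by nlinarith) (by positivity)
          (by ring)
        convert this using 1
        simp only [smul_eq_mul]
        have : μ * (2 * τ) * (κ * (2 * τ)) = (μ * κ) * (4 * τ ^ 2) := by ring
        rw [this, hμκ]
        ring
    · simp only [hτ, if_false]
      push Not at hτ
      rcases le_or_gt 1 τ with h | h
      · right; left
        rw [max_eq_left (by linarith)]
        congr 1
        simp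
      · right; right
        rw [max_eq_right (by linarith)]
        refine ⟨x2, -μ * (2 - 2 * τ), 2 - 2 * τ, h2, by linarith, by linarith, ?_, rfl⟩
        have := hJ j1 j2 (a := 2 * (1 - τ) ^ 2) (b := 1 - 2 * (1 - τ) ^ 2) (by positivity)
          (by nlinarith) (by ring)
        convert this using 1
        simp only [smul_eq_mul]
        have : -μ * (2 - 2 * τ) * (κ * (2 - 2 * τ)) = -(μ * κ) * (4 * (1 - τ) ^ 2) := by ring
        rw [this, hμκ]
        ring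

lemma joined_safe {J : Set ℝ} {x ε : ℝ} (hε : 0 < ε) (hx : x ∉ J) {p : ℝ × ℝ} (hp0 : p.2 ≠ 0)
    (hp : ¬ (x + p.1 * p.2 ∈ J ∧ |p.2| < ε)) :
    JoinedIn {p : ℝ × ℝ | ¬ (x + p.1 * p.2 ∈ J ∧ |p.2| < ε)} p 0 := by
  have ha : 0 < |p.2| := abs_pos.mpr hp0
  set K := ε / |p.2| with hK
  have hK0 : 0 < K := div_pos hε ha
  have s1 : JoinedIn {p : ℝ × ℝ | ¬ (x + p.1 * p.2 ∈ J ∧ |p.2| < ε)} p
      (p.1 / (1 + K), p.2 * (1 + K)) := by
    refine JoinedIn.ofLine (f := fun τ => (p.1 / (1 + K * τ), p.2 * (1 + K * τ))) ?_ (by simp)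
      (by simp) ?_
    · refine ContinuousOn.prodMk (continuousOn_const.div (by fun_prop) ?_) (by fun_prop)
      intro τ hτ
      have := hτ.1
      positivity
    · rintro _ ⟨τ, hτ, rfl⟩ ⟨h1, h2⟩
      have h0 := hτ.1
      have h3 : 0 < 1 + K * τ := by positivity
      simp only at h1 h2
      apply hp
      constructor
      · convert h1 using 2
        field_simp
      · rw [abs_mul, abs_of_pos h3] at h2
        have : 0 ≤ |p.2| * (K * τ) := by positivity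
        linarith
  have hbig : ¬ |p.2 * (1 + K)| < ε := by
    rw [abs_mul, abs_of_pos (by positivity : 0 < 1 + K), not_lt]
    have : |p.2| * K = ε := by rw [hK]; field_simp
    linarith
  have s2 : JoinedIn {p : ℝ × ℝ | ¬ (x + p.1 * p.2 ∈ J ∧ |p.2| < ε)}
      (p.1 / (1 + K), p.2 * (1 + K)) (0, p.2 * (1 + K)) := by
    refine JoinedIn.ofLine (f := fun τ => ((1 - τ) * (p.1 / (1 + K)), p.2 * (1 + K)))
      (by fun_prop) (by simp) (by simp) ?_
    rintro _ ⟨τ, -, rfl⟩ ⟨-, h2⟩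
    exact hbig h2
  have s3 : JoinedIn {p : ℝ × ℝ | ¬ (x + p.1 * p.2 ∈ J ∧ |p.2| < ε)}
      (0, p.2 * (1 + K)) 0 := by
    refine JoinedIn.ofLine (f := fun τ => (0, (1 - τ) * (p.2 * (1 + K))))
      (by fun_prop) (by simp) (by simp) ?_
    rintro _ ⟨τ, -, rfl⟩ ⟨h1, -⟩
    exact hx (by simpa using h1)
  exact (s1.trans s2).trans s3

section Main

variable {g g' : M → M} {V : Set M}

/-- The indices of charts with an unglued point in the image of the bulk. -/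
def Y0 (g : M → M) : Set ℝ :=
  {y | ∃ p : ℝ × ℝ, ¬ glued y p.2 ∧ c y p ∈ g '' (c (√2) '' {p | p.2 ≠ 0})}

/-- The indices of charts with an unglued point sent into the chart `y`. -/
def XX (g' : M → M) (V : Set M) (y : ℝ) : Set ℝ :=
  {x | ∃ p : ℝ × ℝ, ¬ glued x p.2 ∧ c x p ∈ g' '' (c y '' (c y ⁻¹' V))}

lemma countable_Y0 (hg : ContinuousOn g U) : (Y0 g).Countable := by
  apply countable_of_lindelof
  refine ((HereditarilyLindelofSpace.isLindelof _).image (continuous_c _)).image_of_continuousOn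
    (hg.mono ?_)
  rintro _ ⟨p, -, rfl⟩
  exact c_mem_U irrational_sqrt_two p

lemma countable_XX (hg' : ContinuousOn g' V) (y : ℝ) : (XX g' V y).Countable := by
  apply countable_of_lindelof
  refine ((HereditarilyLindelofSpace.isLindelof _).image (continuous_c _)).image_of_continuousOn
    (hg'.mono ?_)
  rintro _ ⟨p, hp, rfl⟩
  exact hp

lemma mem_XX (hgU : MapsTo g U V) (hl : ∀ m ∈ U, g' (g m) = m) {x y l : ℝ} (hx : Irrational x)
    {p : ℝ × ℝ} (h : g (c x (l, 0)) = c y p) : x ∈ XX g' V y := by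
  refine ⟨(l, 0), fun h0 => glued_ne h0 rfl, c y p, ⟨p, ?_, rfl⟩, ?_⟩
  · change c y p ∈ V
    rw [← h]
    exact hgU (c_mem_U hx _)
  · rw [← h, hl _ (c_mem_U hx _)]

lemma mem_Y0 {x y : ℝ} {p p' : ℝ × ℝ} (hp : glued x p.2) (hp' : ¬ glued y p'.2)
    (h : g (c x p) = c y p') : y ∈ Y0 g := by
  refine ⟨p', hp', c x p, ⟨_, ?_, (c_mem_range hp
    (glued_of_irr irrational_sqrt_two (glued_ne hp))).symm⟩, h⟩
  exact glued_ne hp

/-- Good indices. -/
def Good (g g' : M → M) (V : Set M) (x : ℝ) : Prop :=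
  Irrational x ∧ x ∉ XX g' V (√2) ∧ (∀ q : ℚ, x ∉ XX g' V q) ∧ ∀ y ∈ Y0 g, x ∉ XX g' V y

lemma countable_bad (hg : ContinuousOn g U) (hg' : ContinuousOn g' V) :
    {x | ¬ Good g g' V x}.Countable := by
  have h1 : (range ((↑) : ℚ → ℝ) ∪ XX g' V (√2) ∪ (⋃ q : ℚ, XX g' V q) ∪
      ⋃ y ∈ Y0 g, XX g' V y).Countable :=
    (((countable_range _).union (countable_XX hg' _)).union
      (countable_iUnion fun q => countable_XX hg' _)).union
      ((countable_Y0 hg).biUnion fun y _ => countable_XX hg' _)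
  refine h1.mono fun x hx => ?_
  by_contra h
  simp only [mem_union, mem_iUnion, not_or, not_exists] at h
  exact hx ⟨h.1.1.1, h.1.1.2, h.1.2, h.2⟩

lemma good_image (hgU : MapsTo g U V) (hl : ∀ m ∈ U, g' (g m) = m) {x : ℝ}
    (hx : Good g g' V x) (l : ℝ) :
    ∃ y l', Irrational y ∧ y ∉ Y0 g ∧ g (c x (l, 0)) = c y (l', 0) := by
  obtain ⟨y, p, h⟩ := exists_c (g (c x (l, 0)))
  have h1 : ¬ glued y p.2 := by
    intro h1
    rw [c_mem_range h1 (glued_of_irr irrational_sqrt_two (glued_ne h1))] at h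
    exact hx.2.1 (mem_XX hgU hl hx.1 h)
  have h2 : Irrational y := by
    rintro ⟨q, rfl⟩
    exact hx.2.2.1 q (mem_XX hgU hl hx.1 h)
  have h3 : p.2 = 0 := by
    by_contra h3
    exact h1 (glued_of_irr h2 h3)
  refine ⟨y, p.1, h2, fun hy => hx.2.2.2 y hy (mem_XX hgU hl hx.1 h), ?_⟩
  rw [h, ← h3]

/-- The uniform sets used in the Baire category argument. -/
def SS (g : M → M) (ε σ : ℝ) : Set ℝ :=
  {x | Irrational x ∧ ∀ l t, |l| < ε → |t| < ε → t ≠ 0 → 0 < σ * t * (pr (g (c x (l, t)))).im}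

lemma SS_mono {ε ε' σ : ℝ} (h : ε' ≤ ε) : SS g ε σ ⊆ SS g ε' σ :=
  fun _ hx => ⟨hx.1, fun l t h1 h2 h3 => hx.2 l t (h1.trans_le h) (h2.trans_le h) h3⟩

lemma good_mem_SS (hV : IsOpen V) (hg : ContinuousOn g U) (hg' : ContinuousOn g' V)
    (hgU : MapsTo g U V) (hl : ∀ m ∈ U, g' (g m) = m) (hr : ∀ m ∈ V, g (g' m) = m) {x : ℝ}
    (hx : Good g g' V x) : ∃ ε > 0, x ∈ SS g ε 1 ∨ x ∈ SS g ε (-1) := by
  obtain ⟨y, l0, hy, hy0, h0⟩ := good_image hgU hl hx 0
  have hF : Continuous fun p => g (c x p) :=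
    hg.comp_continuous (continuous_c x) (c_mem_U hx.1)
  have hO : IsOpen ((fun p => g (c x p)) ⁻¹' range (c y)) :=
    (isOpenEmbedding_c y).isOpen_range.preimage hF
  obtain ⟨ε, hε, hb⟩ := Metric.isOpen_iff.mp hO (0, 0) ⟨_, h0.symm⟩
  have hball : ∀ p : ℝ × ℝ, p ∈ Metric.ball ((0, 0) : ℝ × ℝ) ε ↔ |p.1| < ε ∧ |p.2| < ε := by
    intro p
    rw [Metric.mem_ball, Prod.dist_eq, max_lt_iff]
    simp
  set H : ℝ × ℝ → ℝ := fun p => (pr (g (c x p))).im with hH
  have hHc : Continuous H := Complex.continuous_im.comp (continuous_pr.comp hF)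
  have hne : ∀ p : ℝ × ℝ, |p.1| < ε → |p.2| < ε → p.2 ≠ 0 → H p ≠ 0 := by
    intro p h1 h2 h3
    obtain ⟨p', hp'⟩ := hb ((hball p).mpr ⟨h1, h2⟩)
    have hgl : glued y p'.2 := by
      by_contra hgl
      exact hy0 (mem_Y0 (glued_of_irr hx.1 h3) hgl hp'.symm)
    simp only [hH]
    simp only at hp'
    rw [← hp', pr_glued hgl]
    exact glued_ne hgl
  have hW : IsOpen (V ∩ g' ⁻¹' (c x '' Metric.ball (0, 0) ε)) :=
    hg'.isOpen_inter_preimage hV (isOpenMap_c x _ Metric.isOpen_ball)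
  have hmem : c y (l0, 0) ∈ V ∩ g' ⁻¹' (c x '' Metric.ball (0, 0) ε) := by
    rw [← h0]
    refine ⟨hgU (c_mem_U hx.1 _), (0, 0), Metric.mem_ball_self hε, ?_⟩
    rw [hl _ (c_mem_U hx.1 _)]
  have hocc : ∀ t : ℝ, t ≠ 0 → c y (l0, t) ∈ V ∩ g' ⁻¹' (c x '' Metric.ball (0, 0) ε) →
      ∃ p : ℝ × ℝ, |p.1| < ε ∧ |p.2| < ε ∧ p.2 ≠ 0 ∧ H p = t := by
    rintro t ht ⟨h1, p, hp, h2⟩
    have h3 : g (c x p) = c y (l0, t) := by rw [h2, hr _ h1]
    have hgl : glued y ((l0, t) : ℝ × ℝ).2 := glued_of_irr hy ht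
    refine ⟨p, ((hball p).mp hp).1, ((hball p).mp hp).2, ?_, ?_⟩
    · intro h4
      have h5 : p = (p.1, 0) := Prod.ext rfl h4
      rw [h5, c_mem_range hgl (glued_of_irr irrational_sqrt_two ht)] at h3
      exact hx.2.1 (mem_XX hgU hl hx.1 h3)
    · simp only [hH]
      rw [h3, pr_glued hgl]
  obtain ⟨⟨t1, ht1, ht1', hm1⟩, ⟨t2, ht2, ht2', hm2⟩⟩ := exists_off_axis hW hmem
  obtain ⟨p1, a1, a2, a3, a4⟩ := hocc t1 ht1' hm1
  obtain ⟨p2, b1, b2, b3, b4⟩ := hocc t2 ht2' hm2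
  simp only at ht1 ht2
  have up := sign_const (s := Ioo (-ε) ε ×ˢ Ioo 0 ε)
    (isPreconnected_Ioo.prod isPreconnected_Ioo) hHc (fun p hp =>
      hne p (abs_lt.mpr hp.1) (abs_lt.mpr ⟨by linarith [hp.2.1], hp.2.2⟩) hp.2.1.ne')
  have dn := sign_const (s := Ioo (-ε) ε ×ˢ Ioo (-ε) 0)
    (isPreconnected_Ioo.prod isPreconnected_Ioo) hHc (fun p hp =>
      hne p (abs_lt.mpr hp.1) (abs_lt.mpr ⟨hp.2.1, by linarith [hp.2.2]⟩) hp.2.2.ne)
  have split : ∀ p : ℝ × ℝ, |p.1| < ε → |p.2| < ε → p.2 ≠ 0 →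
      (p ∈ Ioo (-ε) ε ×ˢ Ioo 0 ε ∧ 0 < p.2) ∨ (p ∈ Ioo (-ε) ε ×ˢ Ioo (-ε) 0 ∧ p.2 < 0) := by
    intro p h1 h2 h3
    rcases lt_or_gt_of_ne h3 with h | h
    · exact Or.inr ⟨⟨abs_lt.mp h1, (abs_lt.mp h2).1, h⟩, h⟩
    · exact Or.inl ⟨⟨abs_lt.mp h1, h, (abs_lt.mp h2).2⟩, h⟩
  refine ⟨ε, hε, ?_⟩
  rcases up with up | up <;> rcases dn with dn | dn
  · exfalso
    rcases split p2 b1 b2 b3 with h | h
    · linarith [up _ h.1]
    · linarith [dn _ h.1]
  · left
    refine ⟨hx.1, fun l t h1 h2 h3 => ?_⟩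
    rcases split (l, t) h1 h2 h3 with h | h
    · have := mul_pos h.2 (up _ h.1)
      simpa [hH] using this
    · have := mul_pos_of_neg_of_neg h.2 (dn _ h.1)
      simpa [hH] using this
  · right
    refine ⟨hx.1, fun l t h1 h2 h3 => ?_⟩
    rcases split (l, t) h1 h2 h3 with h | h
    · have := mul_neg_of_pos_of_neg h.2 (up _ h.1)
      simpa [hH] using this
    · have := mul_neg_of_neg_of_pos h.2 (dn _ h.1)
      simpa [hH] using this
  · exfalso
    rcases split p1 a1 a2 a3 with h | h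
    · linarith [up _ h.1]
    · linarith [dn _ h.1]

lemma baire (hV : IsOpen V) (hg : ContinuousOn g U) (hg' : ContinuousOn g' V)
    (hgU : MapsTo g U V) (hl : ∀ m ∈ U, g' (g m) = m) (hr : ∀ m ∈ V, g (g' m) = m) :
    ∃ ε > 0, ∃ σ : ℝ, (σ = 1 ∨ σ = -1) ∧ ∃ z : ℝ, ∃ r > 0,
      Metric.ball z r ⊆ closure (SS g ε σ) := by
  have hc := (countable_bad hg hg').to_subtype
  let f : {x | ¬ Good g g' V x} ⊕ (ℕ × Bool) → Set ℝ := fun i =>
    match i with
    | Sum.inl x => {x.1}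
    | Sum.inr (n, b) => closure (SS g (1 / ((n : ℝ) + 1)) (if b then 1 else -1))
  obtain ⟨i, hi⟩ := nonempty_interior_of_iUnion_of_closed (f := f) (by
      rintro (x | ⟨n, b⟩)
      · exact isClosed_singleton
      · exact isClosed_closure) (by
      rw [eq_univ_iff_forall]
      intro x
      by_cases hx : Good g g' V x
      · obtain ⟨ε, hε, h⟩ := good_mem_SS hV hg hg' hgU hl hr hx
        obtain ⟨n, hn⟩ := exists_nat_one_div_lt hε
        rcases h with h | h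
        · exact mem_iUnion.mpr ⟨Sum.inr (n, true), subset_closure (SS_mono hn.le h)⟩
        · exact mem_iUnion.mpr ⟨Sum.inr (n, false), subset_closure (SS_mono hn.le h)⟩
      · exact mem_iUnion.mpr ⟨Sum.inl ⟨x, hx⟩, rfl⟩)
  rcases i with x | ⟨n, b⟩
  · simp [f] at hi
  · obtain ⟨z, hz⟩ := hi
    obtain ⟨r, hr0, hb⟩ := Metric.isOpen_iff.mp isOpen_interior z hz
    refine ⟨1 / ((n : ℝ) + 1), by positivity, if b then 1 else -1, ?_, z, r, hr0,
      hb.trans interior_subset⟩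
    cases b <;> simp

lemma strip {ε σ : ℝ} (hε : 0 < ε) {J : Set ℝ} (hJ : J ⊆ closure (SS g ε σ)) {x l t : ℝ}
    (hx : Irrational x) (hs : x + l * t ∈ J) (ht : |t| < ε) (ht0 : t ≠ 0) :
    0 < σ * t * (pr (g (c x (l, t)))).im := by
  have ha : 0 < |t| := abs_pos.mpr ht0
  obtain ⟨x', hx', hd⟩ := Metric.mem_closure_iff.mp (hJ hs) (ε * |t|) (by positivity)
  rw [c_mem_range (p := (l, t)) (glued_of_irr hx ht0) (glued_of_irr hx'.1 ht0)]
  refine hx'.2 _ _ ?_ ht ht0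
  simp only
  have : (x - x') / t + l = (x + l * t - x') / t := by field_simp; ring
  rw [this, abs_div, div_lt_iff₀ ha]
  rwa [Real.dist_eq] at hd

lemma wing (hV : IsOpen V) (hd : Dense V) (hg : ContinuousOn g U)
    (hg'V : MapsTo g' V U) (hr : ∀ m ∈ V, g (g' m) = m) {x : ℝ} (hx : Irrational x) (q : ℚ) :
    ∃ p : ℝ × ℝ, p.2 ≠ 0 ∧ pr (g (c x p)) = ((q : ℝ) : ℂ) := by
  have hO : IsOpen (c q '' {p : ℝ × ℝ | p.2 < 0}) :=
    isOpenMap_c _ _ (isOpen_lt continuous_snd continuous_const)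
  obtain ⟨m, hm1, hm2⟩ := hd.inter_open_nonempty _ hO ⟨_, (0, -1), by simp, rfl⟩
  obtain ⟨x', hx', p0, hp0⟩ := hg'V hm2
  have hO' : IsOpen (U ∩ g ⁻¹' (c q '' {p : ℝ × ℝ | p.2 < 0})) :=
    hg.isOpen_inter_preimage isOpen_U hO
  have hmem : c x' p0 ∈ U ∩ g ⁻¹' (c q '' {p : ℝ × ℝ | p.2 < 0}) := by
    refine ⟨c_mem_U hx' _, ?_⟩
    rw [mem_preimage, hp0, hr _ hm2]
    exact hm1
  obtain ⟨t, -, ht, -, p, hp, h⟩ := (exists_off_axis hO' hmem).1
  rw [c_mem_range (p := (p0.1, t)) (glued_of_irr hx' ht) (glued_of_irr hx ht)] at h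
  refine ⟨((x' - x) / t + p0.1, t), ht, ?_⟩
  · rw [← h]
    apply pr_not_glued
    rintro (h1 | h1)
    · exact lt_asymm h1 hp
    · exact h1.2 ⟨q, rfl⟩

theorem main (hV : IsOpen V) (hd : Dense V) (hg : ContinuousOn g U) (hg' : ContinuousOn g' V)
    (hgU : MapsTo g U V) (hg'V : MapsTo g' V U) (hl : ∀ m ∈ U, g' (g m) = m)
    (hr : ∀ m ∈ V, g (g' m) = m) : False := by
  obtain ⟨ε, hε, σ, hσ, z, r, hr0, hJ⟩ := baire hV hg hg' hgU hl hr
  have hσ2 : σ * σ = 1 := by rcases hσ with h | h <;> rw [h] <;> norm_num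
  have hσa : |σ| = 1 := by rcases hσ with h | h <;> rw [h] <;> norm_num
  have hσ0 : σ ≠ 0 := by rcases hσ with h | h <;> rw [h] <;> norm_num
  have hbad := countable_bad hg hg'
  obtain ⟨x1, j1, g1⟩ := exists_notMem_ball hbad z hr0
  have g1 : Good g g' V x1 := not_not.mp g1
  obtain ⟨y1, l1, hy1, hy1', e1⟩ := good_image hgU hl g1 0
  obtain ⟨x2, j2, g2⟩ := exists_notMem_ball (hbad.union (countable_XX hg' y1)) z hr0
  rw [mem_union, not_or] at g2
  obtain ⟨g2, g2'⟩ := g2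
  have g2 : Good g g' V x2 := not_not.mp g2
  obtain ⟨y2, l2, hy2, hy2', e2⟩ := good_image hgU hl g2 0
  have hy12 : y1 ≠ y2 := by
    rintro rfl
    exact g2' (mem_XX hgU hl g2.1 e2)
  obtain ⟨x3, j3, g3⟩ := exists_notMem_ball
    ((hbad.union (countable_XX hg' y1)).union (countable_XX hg' y2)) (z + 3 * r) hr0
  rw [mem_union, mem_union, not_or, not_or] at g3
  obtain ⟨⟨g3, g31⟩, g32⟩ := g3
  have g3 : Good g g' V x3 := not_not.mp g3
  have j3' : x3 ∉ Metric.ball z r := by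
    rw [Metric.mem_ball, Real.dist_eq, abs_lt] at j3 ⊢
    intro h
    linarith [h.1, h.2, j3.1, j3.2]
  obtain ⟨q, hq⟩ : ∃ q : ℚ, (y1 - q) * (y2 - q) < 0 := by
    rcases lt_or_gt_of_ne hy12 with h | h
    · obtain ⟨q, h1, h2⟩ := exists_rat_btwn h
      exact ⟨q, mul_neg_of_neg_of_pos (by linarith) (by linarith)⟩
    · obtain ⟨q, h1, h2⟩ := exists_rat_btwn h
      exact ⟨q, mul_neg_of_pos_of_neg (by linarith) (by linarith)⟩
  obtain ⟨q', hq'⟩ := exists_rat_gt (max y1 y2)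
  rw [max_lt_iff] at hq'
  obtain ⟨u, hu0, hu⟩ := wing hV hd hg hg'V hr g3.1 q
  obtain ⟨u', hu0', hu'⟩ := wing hV hd hg hg'V hr g3.1 q'
  have safe : ∀ (p : ℝ × ℝ) (s : ℝ), p.2 ≠ 0 → pr (g (c x3 p)) = s →
      ¬ (x3 + p.1 * p.2 ∈ Metric.ball z r ∧ |p.2| < ε) := by
    rintro p s h0 h ⟨h1, h2⟩
    have := strip hε hJ g3.1 h1 h2 h0
    rw [show ((p.1, p.2) : ℝ × ℝ) = p from rfl, h] at this
    simp at this
  obtain ⟨γ, hγ⟩ := (joined_safe hε j3' hu0 (safe u _ hu0 hu)).trans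
    (joined_safe hε j3' hu0' (safe u' _ hu0' hu')).symm
  have hγ' : ∀ t, ¬ (x3 + (γ.extend t).1 * (γ.extend t).2 ∈ Metric.ball z r ∧
      |(γ.extend t).2| < ε) := by
    intro t
    have : γ.extend t ∈ range γ := by rw [← γ.extend_range]; exact ⟨t, rfl⟩
    obtain ⟨s, hs⟩ := this
    rw [← hs]
    exact hγ s
  have hF : Continuous fun p => g (c x3 p) :=
    hg.comp_continuous (continuous_c x3) (c_mem_U g3.1)
  have pe1 : pr (g (c x1 0)) = y1 := by
    rw [show (0 : ℝ × ℝ) = (0, 0) from rfl, e1]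
    exact pr_not_glued fun h => glued_ne h rfl
  have pe2 : pr (g (c x2 0)) = y2 := by
    rw [show (0 : ℝ × ℝ) = (0, 0) from rfl, e2]
    exact pr_not_glued fun h => glued_ne h rfl
  have avoid : ∀ y, y ∉ Y0 g → x3 ∉ XX g' V y → ∀ p, pr (g (c x3 p)) ≠ y := by
    intro y h1 h2 p h
    obtain ⟨p', hp', h3⟩ := mem_of_pr_real h
    by_cases h0 : p.2 = 0
    · have h5 : p = (p.1, 0) := Prod.ext rfl h0
      rw [h5] at h3
      exact h2 (mem_XX hgU hl g3.1 h3)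
    · exact h1 (mem_Y0 (glued_of_irr g3.1 h0) hp' h3)
  have arc : ∀ η : ℝ, η * η = 1 → ∃ a : ℝ → ℂ, Continuous a ∧ a 0 = y1 ∧ a 1 = y2 ∧
      (∀ s, 0 ≤ η * (a s).im) ∧ ∀ s t, a s ≠ pr (g (c x3 (γ.extend t))) := by
    intro η hη
    have hη0 : η ≠ 0 := by rintro rfl; simp at hη
    have hηa : |η| = 1 := by
      have : |η| * |η| = 1 := by rw [← abs_mul, hη, abs_one]
      nlinarith [abs_nonneg η]
    obtain ⟨α, hα, hα0, hα1, hαs⟩ := exists_arc (convex_ball z r) g1.1 g2.1 j1 j2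
      (κ := η * σ * (ε / 2)) (by positivity)
    have hαU : ∀ s, α s ∈ U := by
      intro s
      rcases hαs s with h | h | ⟨x, l, ρ, hx, -, -, -, h⟩ <;> rw [h]
      · exact c_mem_U g1.1 _
      · exact c_mem_U g2.1 _
      · exact c_mem_U hx _
    have hsm : ∀ ρ : ℝ, 0 < ρ → ρ ≤ 1 → |η * σ * (ε / 2) * ρ| < ε := by
      intro ρ h1 h2
      rw [abs_mul, abs_mul, abs_mul, hηa, hσa, abs_of_pos h1, abs_of_pos (by positivity)]
      nlinarith
    have hpos : ∀ x l ρ : ℝ, Irrational x → 0 < ρ → ρ ≤ 1 →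
        x + l * (η * σ * (ε / 2) * ρ) ∈ Metric.ball z r →
        0 < η * (pr (g (c x (l, η * σ * (ε / 2) * ρ)))).im := by
      intro x l ρ hx h1 h2 h3
      have := strip hε hJ hx h3 (hsm ρ h1 h2) (by positivity)
      have e : σ * (η * σ * (ε / 2) * ρ) * (pr (g (c x (l, η * σ * (ε / 2) * ρ)))).im =
          (σ * σ) * ((ε / 2 * ρ) * (η * (pr (g (c x (l, η * σ * (ε / 2) * ρ)))).im)) := by ring
      rw [e, hσ2, one_mul] at this
      exact (mul_pos_iff_of_pos_left (by positivity)).mp this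
    refine ⟨fun s => pr (g (α s)), continuous_pr.comp (hg.comp_continuous hα hαU), ?_, ?_, ?_, ?_⟩
    · simp only [hα0, pe1]
    · simp only [hα1, pe2]
    · intro s
      rcases hαs s with h | h | ⟨x, l, ρ, hx, h1, h2, h3, h⟩ <;> simp only [h]
      · simp [pe1]
      · simp [pe2]
      · exact (hpos x l ρ hx h1 h2 h3).le
    · intro s t he
      rcases hαs s with h | h | ⟨x, l, ρ, hx, h1, h2, h3, h⟩ <;> simp only [h] at he
      · exact avoid y1 hy1' g31 _ (he.symm.trans pe1)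
      · exact avoid y2 hy2' g32 _ (he.symm.trans pe2)
      · have hp := hpos x l ρ hx h1 h2 h3
        have h4 := pr_inj he (by intro h0; rw [h0] at hp; simp at hp)
        have h5 := congrArg g' h4
        rw [hl _ (c_mem_U hx _), hl _ (c_mem_U g3.1 _)] at h5
        apply hγ' t
        rcases c_eq.mp h5 with ⟨h6, h7⟩ | ⟨-, -, h6, h7⟩
        · rw [← h7, ← h6]
          exact ⟨h3, hsm ρ h1 h2⟩
        · rw [← h7, ← h6]
          exact ⟨h3, hsm ρ h1 h2⟩
  obtain ⟨a, ha, ha0, ha1, hai, han⟩ := arc 1 (by norm_num)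
  obtain ⟨b, hb, hb0, hb1, hbi, hbn⟩ := arc (-1) (by norm_num)
  refine Cross.cross a b (fun t => pr (g (c x3 (γ.extend t)))) ha hb
    (continuous_pr.comp (hF.comp γ.continuous_extend)) y1 y2 q q' ha0 ha1 hb0 hb1
    (fun s => by simpa using hai s) (fun s => by simpa using hbi s) ?_ ?_ hq hq'.1 hq'.2 han hbn
  · simp [hu]
  · simp [hu']

end Main

theorem no_dense_copy (V : Set M) (hV : IsOpen V) (hd : Dense V) (h : U ≃ₜ V) : False := by
  classical
  let g : M → M := fun m => if hm : m ∈ U then (h ⟨m, hm⟩ : M) else m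
  let g' : M → M := fun m => if hm : m ∈ V then (h.symm ⟨m, hm⟩ : M) else m
  have e1 : ∀ m (hm : m ∈ U), g m = h ⟨m, hm⟩ := fun m hm => dif_pos hm
  have e2 : ∀ m (hm : m ∈ V), g' m = h.symm ⟨m, hm⟩ := fun m hm => dif_pos hm
  refine main (g := g) (g' := g') hV hd ?_ ?_ ?_ ?_ ?_ ?_
  · rw [continuousOn_iff_continuous_domRestrict]
    have : U.domRestrict g = fun m => (h m : M) := funext fun m => e1 m.1 m.2
    rw [this]
    exact continuous_subtype_val.comp h.continuous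
  · rw [continuousOn_iff_continuous_domRestrict]
    have : V.domRestrict g' = fun m => (h.symm m : M) := funext fun m => e2 m.1 m.2
    rw [this]
    exact continuous_subtype_val.comp h.symm.continuous
  · intro m hm
    rw [e1 m hm]
    exact (h ⟨m, hm⟩).2
  · intro m hm
    rw [e2 m hm]
    exact (h.symm ⟨m, hm⟩).2
  · intro m hm
    rw [e1 m hm, e2 _ (h ⟨m, hm⟩).2]
    simp
  · intro m hm
    rw [e2 m hm, e1 _ (h.symm ⟨m, hm⟩).2]
    simp

end Pool.Agent.H853Z.Surf
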