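import Mathlib

set_option autoImplicit false

namespace Pool.Agent.H853Z.Ramsey

/-- the table of colours, four bits for each residue -/
def T : ℕ := 13897628992055216737618238464940913371885071439823851235811377545149627379427174862233055474508819175161589471962685601257673435222184032265549461659325282337281843331310530706897527787969867248850840441553728396646298126790707064422933968815060321216758408889056025316394282878657575505198565058340329113094705313952893919372784461921676252282240050743885025623450697323161557194454465540028594399961042576326781105338718386101722445401963003674373347468648300790326232961500659620722733599752343221588562175590285884278841472696125352719070880491772484608562077256821856352363053220131887896925787282335255223855397418370277544820106147818466641761279851122875718209817150718877295068953266700594959912759115603885238250477274200439295094877365124937278948434595459833795638720930372010730206073512501447383045729696478944483156421876061970688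

def col (d : ℕ) : ℕ := (T >>> (4 * d)) % 16

def mask (z n : ℕ) : ℕ :=
  Nat.rec 0 (fun x acc => bif (x == 0 || x == z) then acc else
    acc ||| (1 <<< (9 * col x + col ((z + 703 - x) % 703)))) n

def ok (z : ℕ) : Bool :=
  (mask z 703 == 2 ^ 81 - 1 - 2 ^ (10 * col z)) && (Nat.blt (col z) 9) && (col (703 - z) == col z)

def allOk (a n : ℕ) : Bool := Nat.rec true (fun i acc => ok (a + i) && acc) n

lemma allOk_spec (a n : ℕ) (h : allOk a n = true) : ∀ i < n, ok (a + i) = true := by
  induction n with
  | zero => intro i hi; omega
  | succ n ih =>
    have h' : (ok (a + n) && allOk a n) = true := h
    rw [Bool.and_eq_true] at h'
    intro i hi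
    rcases Nat.lt_succ_iff_lt_or_eq.mp hi with h1 | h1
    · exact ih h'.2 i h1
    · rw [h1]; exact h'.1

lemma chk : allOk 1 702 = true := by decide +kernel

end Pool.Agent.H853Z.Ramsey
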