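import Pool.Agent.H853Z.RamseyA

set_option autoImplicit false

namespace Pool.Agent.H853Z.Ramsey

lemma mask_succ (z n : ℕ) : mask z (n + 1) = bif (n == 0 || n == z) then mask z n else
    mask z n ||| (1 <<< (9 * col n + col ((z + 703 - n) % 703))) := rfl

lemma mask_spec (z n b : ℕ) : (mask z n).testBit b = true ↔
    ∃ x < n, x ≠ 0 ∧ x ≠ z ∧ b = 9 * col x + col ((z + 703 - x) % 703) := by
  induction n with
  | zero => simp [mask]
  | succ n ih =>
    rw [mask_succ]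
    by_cases h : n = 0 ∨ n = z
    · have : (n == 0 || n == z) = true := by simpa using h
      rw [this, cond_true, ih]
      constructor
      · rintro ⟨x, h1, h2⟩
        exact ⟨x, by omega, h2⟩
      · rintro ⟨x, h1, h2, h3, h4⟩
        exact ⟨x, by omega, h2, h3, h4⟩
    · have : (n == 0 || n == z) = false := by simpa using h
      rw [this, cond_false, Nat.testBit_or, Bool.or_eq_true, ih, Nat.one_shiftLeft,
        Nat.testBit_two_pow, decide_eq_true_eq]
      constructor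
      · rintro (⟨x, h1, h2⟩ | h1)
        · exact ⟨x, by omega, h2⟩
        · exact ⟨n, by omega, by omega, by omega, h1.symm⟩
      · rintro ⟨x, h1, h2, h3, h4⟩
        rcases Nat.lt_succ_iff_lt_or_eq.mp h1 with h5 | h5
        · exact Or.inl ⟨x, h5, h2, h3, h4⟩
        · subst h5
          exact Or.inr h4.symm

lemma bits : ∀ c j k : Fin 9, (2 ^ 81 - 1 - 2 ^ (10 * c.1) : ℕ).testBit (9 * j.1 + k.1) = true ↔
    ¬ (j = c ∧ k = c) := by decide +kernel

lemma ok_of {z : ℕ} (h0 : z ≠ 0) (h1 : z < 703) :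
    mask z 703 = 2 ^ 81 - 1 - 2 ^ (10 * col z) ∧ col z < 9 ∧ col (703 - z) = col z := by
  have := allOk_spec 1 702 chk (z - 1) (by omega)
  rw [show 1 + (z - 1) = z by omega] at this
  simp only [ok, Bool.and_eq_true, beq_iff_eq, Nat.blt_eq] at this
  exact ⟨this.1.1, this.1.2, this.2⟩

/-- the colour of a residue -/
def C (d : ZMod 703) : Fin 9 := ⟨col d.val % 9, Nat.mod_lt _ (by norm_num)⟩

lemma val_ne {d : ZMod 703} (h : d ≠ 0) : d.val ≠ 0 := fun h0 => h ((ZMod.val_eq_zero d).mp h0)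

lemma C_val {d : ZMod 703} (h : d ≠ 0) : (C d).1 = col d.val :=
  Nat.mod_eq_of_lt (ok_of (val_ne h) (ZMod.val_lt d)).2.1

lemma C_neg (d : ZMod 703) : C (-d) = C d := by
  by_cases h : d = 0
  · rw [h, neg_zero]
  · apply Fin.ext
    rw [C_val h, C_val (neg_ne_zero.mpr h), ZMod.neg_val, if_neg h]
    exact (ok_of (val_ne h) (ZMod.val_lt d)).2.2

lemma val_sub' (z x : ZMod 703) : (z - x).val = (z.val + 703 - x.val) % 703 := by
  have hx := ZMod.val_lt x
  have : z - x = ((z.val + 703 - x.val : ℕ) : ZMod 703) := by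
    rw [Nat.cast_sub (by omega)]
    push_cast
    simp only [ZMod.natCast_val, ZMod.cast_id', id_eq]
    have : (703 : ZMod 703) = 0 := rfl
    rw [this, add_zero]
  rw [this, ZMod.val_natCast]

lemma key {z : ZMod 703} (hz : z ≠ 0) (j k : Fin 9) :
    (∃ x, x ≠ 0 ∧ x ≠ z ∧ C x = j ∧ C (z - x) = k) ↔ ¬ (j = C z ∧ k = C z) := by
  rw [← bits (C z) j k, C_val hz, ← (ok_of (val_ne hz) (ZMod.val_lt z)).1, mask_spec]
  constructor
  · rintro ⟨x, h1, h2, h3, h4⟩
    refine ⟨x.val, ZMod.val_lt x, val_ne h1, fun h => h2 (ZMod.val_injective 703 h), ?_⟩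
    rw [← val_sub', ← C_val h1, ← C_val (sub_ne_zero.mpr h2.symm), h3, h4]
  · rintro ⟨x, h1, h2, h3, h4⟩
    have hv : (x : ZMod 703).val = x := ZMod.val_cast_of_lt h1
    have a1 : (x : ZMod 703) ≠ 0 := fun h => h2 (by rw [← hv, h]; rfl)
    have a2 : (x : ZMod 703) ≠ z := fun h => h3 (by rw [← hv, h])
    rw [← hv, ← val_sub', ← C_val a1, ← C_val (sub_ne_zero.mpr a2.symm)] at h4
    have b1 := (C (x : ZMod 703)).2
    have b2 := (C (z - x)).2
    have b3 := j.2
    have b4 := k.2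
    exact ⟨x, a1, a2, Fin.ext (by omega), Fin.ext (by omega)⟩

/-- the colouring of pairs -/
def c (x y : ZMod 703) : Fin 9 := C (x - y)

lemma c_symm (x y : ZMod 703) : c x y = c y x := by
  unfold c
  rw [← C_neg, neg_sub]

lemma c_path (x y : ZMod 703) (h : x ≠ y) (j k : Fin 9) (hjk : ¬ (j = c x y ∧ k = c x y)) :
    ∃ z, z ≠ x ∧ z ≠ y ∧ c x z = j ∧ c z y = k := by
  obtain ⟨w, h1, h2, h3, h4⟩ := (key (sub_ne_zero.mpr h) j k).mpr hjk
  refine ⟨x - w, fun h5 => h1 (by linear_combination -h5), fun h5 => h2 (by linear_combination -h5),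
    ?_, ?_⟩
  · unfold c
    rw [sub_sub_cancel, h3]
  · unfold c
    rw [← h4]
    congr 1
    ring

lemma c_tri (x y z : ZMod 703) (h1 : x ≠ y) (h2 : y ≠ z) (h3 : x ≠ z) :
    ¬ (c x y = c y z ∧ c y z = c x z) := by
  rintro ⟨h4, h5⟩
  refine (key (sub_ne_zero.mpr h3) (c x z) (c x z)).mp
    ⟨x - y, sub_ne_zero.mpr h1, fun h => h2 (by linear_combination -h), h4.trans h5, ?_⟩ ⟨rfl, rfl⟩
  rw [← h5]
  unfold c
  congr 1
  ring

lemma c_used (i : Fin 9) : ∃ x y : ZMod 703, x ≠ y ∧ c x y = i := by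
  have h01 : (0 : ZMod 703) ≠ 1 := by decide
  by_cases h : i = c 0 1
  · exact ⟨0, 1, h01, h.symm⟩
  · obtain ⟨z, h1, -, h2, -⟩ := c_path 0 1 h01 i i (fun h3 => h h3.1)
    exact ⟨0, z, h1.symm, h2⟩

lemma not_pp : ¬ IsPrimePow 703 := by
  intro h
  obtain ⟨p, k, hp, -, hk⟩ := (isPrimePow_nat_iff 703).mp h
  have h1 : 19 ∣ p ^ k := by rw [hk]; norm_num
  have h2 : 37 ∣ p ^ k := by rw [hk]; norm_num
  have h3 := (Nat.prime_dvd_prime_iff_eq (by norm_num) hp).mp
    ((by norm_num : Nat.Prime 19).dvd_of_dvd_pow h1)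
  have h4 := (Nat.prime_dvd_prime_iff_eq (by norm_num) hp).mp
    ((by norm_num : Nat.Prime 37).dvd_of_dvd_pow h2)
  omega

end Pool.Agent.H853Z.Ramsey
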