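import Mathlib

set_option autoImplicit false

namespace Pool.Agent.H853Z.Surf

open Set Topology

/-- The points of the chart `x` which are glued to the other charts. -/
def glued (x t : ℝ) : Prop := 0 < t ∨ (t < 0 ∧ Irrational x)

lemma glued_ne {x t : ℝ} (h : glued x t) : t ≠ 0 := by
  rcases h with h | h
  · exact h.ne'
  · exact h.1.ne

lemma glued_of_irr {x t : ℝ} (hx : Irrational x) (ht : t ≠ 0) : glued x t := by
  rcases lt_or_gt_of_ne ht with h | h
  · exact Or.inr ⟨h, hx⟩
  · exact Or.inl h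

lemma isOpen_glued (x : ℝ) : IsOpen {p : ℝ × ℝ | glued x p.2} := by
  by_cases hx : Irrational x
  · have : {p : ℝ × ℝ | glued x p.2} = {p : ℝ × ℝ | p.2 ≠ 0} := by
      ext p
      exact ⟨glued_ne, glued_of_irr hx⟩
    rw [this]
    exact isOpen_ne_fun continuous_snd continuous_const
  · have : {p : ℝ × ℝ | glued x p.2} = {p : ℝ × ℝ | 0 < p.2} := by
      ext p
      simp [glued, hx]
    rw [this]
    exact isOpen_lt continuous_const continuous_snd

def rel (a b : ℝ × ℝ × ℝ) : Prop :=
  a = b ∨ (glued a.1 a.2.2 ∧ glued b.1 b.2.2 ∧ a.2.2 = b.2.2 ∧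
    a.1 + a.2.1 * a.2.2 = b.1 + b.2.1 * b.2.2)

def st : Setoid (ℝ × ℝ × ℝ) where
  r := rel
  iseqv := {
    refl := fun _ => Or.inl rfl
    symm := by
      rintro a b (h | ⟨h1, h2, h3, h4⟩)
      · exact Or.inl h.symm
      · exact Or.inr ⟨h2, h1, h3.symm, h4.symm⟩
    trans := by
      rintro a b c (h | ⟨h1, h2, h3, h4⟩) (k | ⟨k1, k2, k3, k4⟩)
      · exact Or.inl (h.trans k)
      · subst h; exact Or.inr ⟨k1, k2, k3, k4⟩
      · subst k; exact Or.inr ⟨h1, h2, h3, h4⟩
      · exact Or.inr ⟨h1, k2, h3.trans k3, h4.trans k4⟩ }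

/-- The surface. -/
def M : Type := Quotient st

/-- The chart with index `x`. -/
def c (x : ℝ) (p : ℝ × ℝ) : M := Quotient.mk st (x, p)

lemma c_eq {x y : ℝ} {p p' : ℝ × ℝ} : c x p = c y p' ↔
    (x = y ∧ p = p') ∨ (glued x p.2 ∧ glued y p'.2 ∧ p.2 = p'.2 ∧
      x + p.1 * p.2 = y + p'.1 * p'.2) := by
  refine (Quotient.eq (r := st) (x := (x, p)) (y := (y, p'))).trans ?_
  change rel _ _ ↔ _
  unfold rel
  simp [Prod.ext_iff]

lemma exists_c (m : M) : ∃ x p, m = c x p := by
  induction m using Quotient.inductionOn with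
  | _ a => exact ⟨a.1, a.2, rfl⟩

instance : TopologicalSpace M := ⨆ x : ℝ, TopologicalSpace.coinduced (c x) inferInstance

lemma isOpen_iff {O : Set M} : IsOpen O ↔ ∀ x, IsOpen (c x ⁻¹' O) := by
  rw [isOpen_iSup_iff]
  rfl

lemma continuous_iff {Y : Type*} [TopologicalSpace Y] {f : M → Y} :
    Continuous f ↔ ∀ x, Continuous (fun p => f (c x p)) := by
  rw [continuous_iSup_dom]
  refine forall_congr' fun x => ?_
  rw [continuous_coinduced_dom]
  rfl

lemma continuous_c (x : ℝ) : Continuous (c x) :=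
  continuous_def.mpr fun _ hO => isOpen_iff.mp hO x

lemma c_inj (x : ℝ) : Function.Injective (c x) := by
  intro p p' h
  rcases c_eq.mp h with h | ⟨h1, -, h3, h4⟩
  · exact h.2
  · have ht := glued_ne h1
    rw [← h3] at h4
    have : p.1 = p'.1 := mul_right_cancel₀ ht (by linarith)
    exact Prod.ext this h3

lemma isOpenMap_c (x : ℝ) : IsOpenMap (c x) := by
  intro G hG
  rw [isOpen_iff]
  intro y
  by_cases hxy : x = y
  · subst hxy
    rw [preimage_image_eq _ (c_inj x)]
    exact hG
  · have : c y ⁻¹' (c x '' G) = ({p : ℝ × ℝ | glued x p.2} ∩ {p : ℝ × ℝ | glued y p.2}) ∩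
        (fun p : ℝ × ℝ => ((y - x) / p.2 + p.1, p.2)) ⁻¹' G := by
      ext p
      constructor
      · rintro ⟨p', hp', h⟩
        rcases c_eq.mp h with h | ⟨h1, h2, h3, h4⟩
        · exact absurd h.1 hxy
        · have ht := glued_ne h2
          refine ⟨⟨by rw [h3] at h1; exact h1, h2⟩, ?_⟩
          have : ((y - x) / p.2 + p.1, p.2) = p' := by
            refine Prod.ext ?_ h3.symm
            rw [h3] at h4
            field_simp
            linarith
          simpa [this] using hp'
      · rintro ⟨⟨h1, h2⟩, h3⟩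
        refine ⟨_, h3, c_eq.mpr (Or.inr ⟨h1, h2, rfl, ?_⟩)⟩
        have ht := glued_ne h2
        simp only
        field_simp
        ring
    rw [this]
    apply ContinuousOn.isOpen_inter_preimage _ ((isOpen_glued x).inter (isOpen_glued y)) hG
    refine ContinuousOn.prodMk ?_ continuous_snd.continuousOn
    refine ContinuousOn.add ?_ continuous_fst.continuousOn
    exact continuousOn_const.div continuous_snd.continuousOn (fun p hp => glued_ne hp.1)

lemma isOpenEmbedding_c (x : ℝ) : IsOpenEmbedding (c x) :=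
  .of_continuous_injective_isOpenMap (continuous_c x) (c_inj x) (isOpenMap_c x)

/-- The height used by the projection to the plane. -/
noncomputable def ht (x t : ℝ) : ℝ := by
  classical
  exact if Irrational x then t else max t 0

lemma ht_of_glued {x t : ℝ} (h : glued x t) : ht x t = t := by
  unfold ht
  rcases h with h | h
  · split_ifs
    · rfl
    · exact max_eq_left h.le
  · simp [h.2]

lemma ht_of_not_glued {x t : ℝ} (h : ¬ glued x t) : ht x t = 0 := by
  unfold ht
  unfold glued at h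
  push Not at h
  split_ifs with hx
  · by_contra h0
    rcases lt_or_gt_of_ne h0 with h1 | h1
    · exact h.2 h1 hx
    · exact absurd h1 (not_lt.mpr h.1)
  · exact max_eq_right h.1

lemma continuous_ht (x : ℝ) : Continuous (ht x) := by
  unfold ht
  split_ifs
  · exact continuous_id
  · exact continuous_id.max continuous_const

/-- The projection to the plane. -/
noncomputable def pr : M → ℂ :=
  Quotient.lift (s := st) (fun a => ⟨a.1 + a.2.1 * ht a.1 a.2.2, ht a.1 a.2.2⟩) (by
    rintro a b (h | ⟨h1, h2, h3, h4⟩)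
    · rw [h]
    · rw [ht_of_glued h1, ht_of_glued h2, h4, h3])

lemma pr_c (x : ℝ) (p : ℝ × ℝ) : pr (c x p) = ⟨x + p.1 * ht x p.2, ht x p.2⟩ := rfl

lemma continuous_pr : Continuous pr := by
  rw [continuous_iff]
  intro x
  have h := continuous_ht x
  have : (fun p : ℝ × ℝ => pr (c x p)) =
      fun p : ℝ × ℝ => ((x + p.1 * ht x p.2 : ℝ) : ℂ) + ((ht x p.2 : ℝ) : ℂ) * Complex.I := by
    funext p
    rw [pr_c]
    apply Complex.ext <;> simp
  rw [this]
  fun_prop

lemma pr_glued {x : ℝ} {p : ℝ × ℝ} (h : glued x p.2) : pr (c x p) = ⟨x + p.1 * p.2, p.2⟩ := by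
  rw [pr_c, ht_of_glued h]

lemma pr_not_glued {x : ℝ} {p : ℝ × ℝ} (h : ¬ glued x p.2) : pr (c x p) = x := by
  rw [pr_c, ht_of_not_glued h]
  apply Complex.ext <;> simp

lemma glued_of_im {x : ℝ} {p : ℝ × ℝ} (h : (pr (c x p)).im ≠ 0) : glued x p.2 := by
  by_contra h1
  rw [pr_not_glued h1] at h
  simp at h

/-- The projection is injective away from the real axis. -/
lemma pr_inj {m m' : M} (h : pr m = pr m') (him : (pr m).im ≠ 0) : m = m' := by
  obtain ⟨x, p, rfl⟩ := exists_c m
  obtain ⟨y, p', rfl⟩ := exists_c m'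
  have h1 := glued_of_im him
  have h2 := glued_of_im (h ▸ him)
  rw [pr_glued h1, pr_glued h2] at h
  have h3 := congrArg Complex.re h
  have h4 := congrArg Complex.im h
  exact c_eq.mpr (Or.inr ⟨h1, h2, h4, h3⟩)

/-- A point projecting to the real number `y` lies in the chart `y`, and is not glued. -/
lemma mem_of_pr_real {m : M} {y : ℝ} (h : pr m = y) : ∃ p, ¬ glued y p.2 ∧ m = c y p := by
  obtain ⟨x, p, rfl⟩ := exists_c m
  have h1 : ¬ glued x p.2 := by
    intro h1
    rw [pr_glued h1] at h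
    have := congrArg Complex.im h
    exact glued_ne h1 (by simpa using this)
  rw [pr_not_glued h1] at h
  have : x = y := by exact_mod_cast h
  subst this
  exact ⟨p, h1, rfl⟩

instance : T2Space M := by
  refine ⟨fun m m' hne => ?_⟩
  by_cases h : pr m = pr m'
  · have him : (pr m).im = 0 := by
      by_contra h0
      exact hne (pr_inj h h0)
    have h1 : pr m = ((pr m).re : ℂ) := by
      apply Complex.ext <;> simp [him]
    obtain ⟨p, -, hp⟩ := mem_of_pr_real h1
    obtain ⟨p', -, hp'⟩ := mem_of_pr_real (h.symm.trans h1)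
    generalize (pr m).re = y at hp hp'
    subst hp hp'
    have : p ≠ p' := fun e => hne (by rw [e])
    exact separated_by_isOpenEmbedding (isOpenEmbedding_c y) this
  · exact separated_by_continuous continuous_pr h

lemma c_mem_range {x y : ℝ} {p : ℝ × ℝ} (hx : glued x p.2) (hy : glued y p.2) :
    c x p = c y ((x - y) / p.2 + p.1, p.2) := by
  refine c_eq.mpr (Or.inr ⟨hx, hy, rfl, ?_⟩)
  have ht := glued_ne hx
  simp only
  field_simp
  ring

instance : ConnectedSpace M := by
  rw [connectedSpace_iff_univ]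
  have : (univ : Set M) = ⋃ x, range (c x) := by
    symm
    rw [eq_univ_iff_forall]
    intro m
    obtain ⟨x, p, rfl⟩ := exists_c m
    exact mem_iUnion.mpr ⟨x, p, rfl⟩
  refine ⟨⟨c 0 0, trivial⟩, ?_⟩
  rw [this]
  refine isPreconnected_iUnion ⟨c 0 (0, 1), mem_iInter.mpr fun x => ?_⟩
    fun x => isPreconnected_range (continuous_c x)
  exact ⟨_, (c_mem_range (x := 0) (y := x) (p := (0, 1)) (Or.inl one_pos) (Or.inl one_pos)).symm⟩

/-- Every open set meeting a chart meets it off the axis. -/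
lemma exists_off_axis {O : Set M} (hO : IsOpen O) {x : ℝ} {p : ℝ × ℝ} (hp : c x p ∈ O) :
    (∃ t, p.2 < t ∧ t ≠ 0 ∧ c x (p.1, t) ∈ O) ∧ (∃ t, t < p.2 ∧ t ≠ 0 ∧ c x (p.1, t) ∈ O) := by
  have h1 : IsOpen {t : ℝ | c x (p.1, t) ∈ O} :=
    hO.preimage ((continuous_c x).comp (continuous_const.prodMk continuous_id))
  obtain ⟨ε, hε, hb⟩ := Metric.isOpen_iff.mp h1 p.2 hp
  constructor
  · by_cases h : p.2 + ε / 2 = 0
    · refine ⟨p.2 + ε / 3, by linarith, by intro h2; linarith, hb ?_⟩
      rw [Metric.mem_ball, Real.dist_eq, abs_lt]; constructor <;> linarith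
    · refine ⟨p.2 + ε / 2, by linarith, h, hb ?_⟩
      rw [Metric.mem_ball, Real.dist_eq, abs_lt]; constructor <;> linarith
  · by_cases h : p.2 - ε / 2 = 0
    · refine ⟨p.2 - ε / 3, by linarith, by intro h2; linarith, hb ?_⟩
      rw [Metric.mem_ball, Real.dist_eq, abs_lt]; constructor <;> linarith
    · refine ⟨p.2 - ε / 2, by linarith, h, hb ?_⟩
      rw [Metric.mem_ball, Real.dist_eq, abs_lt]; constructor <;> linarith

instance : TopologicalSpace.SeparableSpace M := by
  rw [← TopologicalSpace.isSeparable_univ_iff]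
  have h1 : TopologicalSpace.IsSeparable (range (c (√2)) ∪ ⋃ q : ℚ, range (c q)) :=
    (TopologicalSpace.isSeparable_range (continuous_c _)).union
      (TopologicalSpace.isSeparable_iUnion.mpr fun q =>
        TopologicalSpace.isSeparable_range (continuous_c _))
  refine h1.closure.mono fun m _ => ?_
  rw [mem_closure_iff]
  intro O hO hm
  obtain ⟨x, p, rfl⟩ := exists_c m
  by_cases hx : Irrational x
  · obtain ⟨t, -, ht, h⟩ := (exists_off_axis hO hm).1
    refine ⟨_, h, Or.inl ⟨_, (c_mem_range (glued_of_irr hx ht)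
      (glued_of_irr irrational_sqrt_two ht)).symm⟩⟩
  · unfold Irrational at hx
    push Not at hx
    obtain ⟨q, rfl⟩ := hx
    exact ⟨_, hm, Or.inr (mem_iUnion.mpr ⟨q, p, rfl⟩)⟩

/-- The plane as a Euclidean space. -/
noncomputable def eu : EuclideanSpace ℝ (Fin 2) ≃ₜ ℝ × ℝ :=
  ((EuclideanSpace.equiv (Fin 2) ℝ).toHomeomorph).trans (Homeomorph.finTwoArrow)

lemma isOpenEmbedding_ce (x : ℝ) : IsOpenEmbedding (c x ∘ eu) :=
  (isOpenEmbedding_c x).comp eu.isOpenEmbedding

noncomputable def chart (x : ℝ) : OpenPartialHomeomorph M (EuclideanSpace ℝ (Fin 2)) :=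
  ((isOpenEmbedding_ce x).toOpenPartialHomeomorph (c x ∘ eu)).symm

noncomputable instance : ChartedSpace (EuclideanSpace ℝ (Fin 2)) M where
  atlas := range chart
  chartAt m := chart (exists_c m).choose
  mem_chart_source m := by
    obtain ⟨p, hp⟩ := (exists_c m).choose_spec
    simp only [chart, OpenPartialHomeomorph.symm_source,
      IsOpenEmbedding.toOpenPartialHomeomorph_target]
    exact ⟨eu.symm p, by simpa using hp.symm⟩
  chart_mem_atlas m := ⟨_, rfl⟩

/-- A Lindelöf subset of the surface contains unglued points of only countably many charts. -/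
lemma countable_of_lindelof {S : Set M} (hS : IsLindelof S) :
    {x : ℝ | ∃ p : ℝ × ℝ, ¬ glued x p.2 ∧ c x p ∈ S}.Countable := by
  obtain ⟨T, hT, hcov⟩ := hS.elim_countable_subcover (fun x => range (c x))
    (fun x => (isOpenEmbedding_c x).isOpen_range) (fun m _ => by
      obtain ⟨x, p, rfl⟩ := exists_c m
      exact mem_iUnion.mpr ⟨x, p, rfl⟩)
  refine hT.mono ?_
  rintro x ⟨p, hp, hm⟩
  obtain ⟨y, hy, p', h⟩ : ∃ y ∈ T, c x p ∈ range (c y) := by simpa using hcov hm
  rcases c_eq.mp h with h | h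
  · exact h.1 ▸ hy
  · exact absurd h.2.1 hp

end Pool.Agent.H853Z.Surf
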